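import Pool.Agent.Helper23.KU.ZDefs

/-!
# KU, stage Z, piece Z1: shifts of a function with non-negative real part
-/

set_option autoImplicit false

namespace Pool.Agent.Helper23.KU

open Polynomial Filter Topology Metric MeasureTheory Set

/-- Taylor expansion with remainder. -/
private lemma Z1_taylor {A : ℂ → ℂ} (hA : DifferentiableOn ℂ A (ball 0 1)) (k : ℕ) :
    ∃ (a : ℕ → ℂ) (R : ℂ → ℂ), DifferentiableOn ℂ R (ball 0 1) ∧
      ∀ z ∈ ball (0 : ℂ) 1, A z = ∑ n ∈ Finset.range k, a n * z ^ n + z ^ k * R z := by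
  induction k with
  | zero => exact ⟨0, A, hA, by simp⟩
  | succ k ih =>
    obtain ⟨a, R, hR, h⟩ := ih
    refine ⟨fun n => if n < k then a n else R 0, dslope R 0, ?_, ?_⟩
    · exact (Complex.differentiableOn_dslope (ball_mem_nhds 0 one_pos)).2 hR
    · intro z hz
      have h1 : ∑ n ∈ Finset.range k, (if n < k then a n else R 0) * z ^ n =
          ∑ n ∈ Finset.range k, a n * z ^ n := by
        refine Finset.sum_congr rfl fun n hn => ?_
        rw [if_pos (Finset.mem_range.1 hn)]
      have h2 : R z = R 0 + z * dslope R 0 z := by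
        have h3 := sub_smul_dslope R 0 z
        rw [sub_zero, smul_eq_mul] at h3
        rw [h3]
        ring
      rw [h z hz, Finset.sum_range_succ, h1]
      simp only [lt_self_iff_false, if_false]
      linear_combination z ^ k * h2

/-- the identity on the unit circle -/
private lemma Z1_circle {k : ℕ} {z u : ℂ} (hz : ‖z‖ = 1) (a : ℕ → ℂ) (r : ℝ) :
    (z ^ k * u + (starRingEnd ℂ) (z ^ k) * (u - ∑ n ∈ Finset.range k, a n * (r : ℂ) ^ n * z ^ n) +
      ∑ n ∈ Finset.range k, (starRingEnd ℂ) (a n) * (r : ℂ) ^ n * z ^ (k - n)).re =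
      2 * (z ^ k).re * u.re := by
  have hzz : (starRingEnd ℂ) z * z = 1 := by
    rw [mul_comm, Complex.mul_conj, Complex.normSq_eq_norm_sq, hz]
    norm_num
  have h1 : ∀ n ∈ Finset.range k, (starRingEnd ℂ) (a n) * (r : ℂ) ^ n * z ^ (k - n) =
      (starRingEnd ℂ) ((starRingEnd ℂ) (z ^ k) * (a n * (r : ℂ) ^ n * z ^ n)) := by
    intro n hn
    have hn' : n < k := Finset.mem_range.1 hn
    have h2 : z ^ k = z ^ (k - n) * z ^ n := by
      rw [← pow_add]
      congr 1
      omega
    rw [map_mul, Complex.conj_conj, map_mul, map_mul, map_pow, map_pow, Complex.conj_ofReal, h2]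
    have h3 : z ^ n * ((starRingEnd ℂ) z) ^ n = 1 := by
      rw [← mul_pow, mul_comm, hzz, one_pow]
    linear_combination (-(starRingEnd ℂ) (a n) * (r : ℂ) ^ n * z ^ (k - n)) * h3
  rw [Finset.sum_congr rfl h1, ← map_sum, ← Finset.mul_sum]
  set S : ℂ := ∑ n ∈ Finset.range k, a n * (r : ℂ) ^ n * z ^ n
  set w : ℂ := z ^ k
  simp only [Complex.add_re, Complex.mul_re, Complex.conj_re, Complex.conj_im, Complex.sub_re,
    Complex.sub_im]
  ring

theorem shift_exists {A : ℂ → ℂ} (hA : DifferentiableOn ℂ A (ball 0 1))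
    (hA0 : ∀ z ∈ ball (0 : ℂ) 1, 0 ≤ (A z).re) (k : ℕ) :
    ∃ (B : ℂ → ℂ) (P : ℂ[X]), DifferentiableOn ℂ B (ball 0 1) ∧
      (∀ z ∈ ball (0 : ℂ) 1, |(B z).re| ≤ 2 * (A z).re) ∧
      ∀ z ∈ ball (0 : ℂ) 1, z ^ k * B z = (z ^ (2 * k) + 1) * A z + P.eval z := by
  obtain ⟨a, R, hR, hT⟩ := Z1_taylor hA k
  -- the dilated functions
  set Br : ℝ → ℂ → ℂ := fun r z => z ^ k * A (r * z) + (r : ℂ) ^ k * R (r * z) +
    ∑ n ∈ Finset.range k, (starRingEnd ℂ) (a n) * (r : ℂ) ^ n * z ^ (k - n) with hBr
  have hmem : ∀ r : ℝ, 0 ≤ r → r < 1 → ∀ z : ℂ, ‖z‖ ≤ 1 → (r : ℂ) * z ∈ ball (0 : ℂ) 1 := by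
    intro r h0 h1 z hz
    rw [mem_ball_zero_iff, norm_mul, Complex.norm_real, Real.norm_of_nonneg h0]
    nlinarith [norm_nonneg z]
  have hkey : ∀ r : ℝ, 0 ≤ r → r < 1 → ∀ z ∈ ball (0 : ℂ) 1,
      |(Br r z).re| ≤ 2 * (A (r * z)).re := by
    intro r hr0 hr1 z hz
    have hmaps : MapsTo (fun z : ℂ => (r : ℂ) * z) (closedBall 0 1) (ball 0 1) :=
      fun z hz => hmem r hr0 hr1 z (by simpa using hz)
    have hcA : ContinuousOn (fun z : ℂ => A (r * z)) (closedBall 0 1) :=
      hA.continuousOn.comp (by fun_prop) hmaps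
    have hcR : ContinuousOn (fun z : ℂ => R (r * z)) (closedBall 0 1) :=
      hR.continuousOn.comp (by fun_prop) hmaps
    have hdA : DifferentiableOn ℂ (fun z : ℂ => A (r * z)) (ball 0 1) :=
      hA.comp (by fun_prop) (hmaps.mono_left ball_subset_closedBall)
    have hdR : DifferentiableOn ℂ (fun z : ℂ => R (r * z)) (ball 0 1) :=
      hR.comp (by fun_prop) (hmaps.mono_left ball_subset_closedBall)
    have hcB : ContinuousOn (Br r) (closedBall 0 1) := by
      rw [hBr]
      refine ((by fun_prop : ContinuousOn (fun z : ℂ => z ^ k) (closedBall 0 1)).mul hcA).add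
        (continuousOn_const.mul hcR) |>.add ?_
      fun_prop
    have hdB : DifferentiableOn ℂ (Br r) (ball 0 1) := by
      rw [hBr]
      refine ((by fun_prop : DifferentiableOn ℂ (fun z : ℂ => z ^ k) (ball 0 1)).mul hdA).add
        ((differentiableOn_const _).mul hdR) |>.add ?_
      fun_prop
    -- on the circle
    have hcirc : ∀ z : ℂ, ‖z‖ = 1 → |(Br r z).re| ≤ 2 * (A (r * z)).re := by
      intro z hz
      have h1 : (r : ℂ) ^ k * R (r * z) = (starRingEnd ℂ) (z ^ k) *
          (A (r * z) - ∑ n ∈ Finset.range k, a n * (r : ℂ) ^ n * z ^ n) := by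
        have h2 := hT (r * z) (hmem r hr0 hr1 z hz.le)
        have h3 : ∑ n ∈ Finset.range k, a n * ((r : ℂ) * z) ^ n =
            ∑ n ∈ Finset.range k, a n * (r : ℂ) ^ n * z ^ n :=
          Finset.sum_congr rfl fun n _ => by rw [mul_pow]; ring
        have hzz : (starRingEnd ℂ) (z ^ k) * z ^ k = 1 := by
          rw [map_pow, ← mul_pow, mul_comm, Complex.mul_conj, Complex.normSq_eq_norm_sq, hz]
          norm_num
        rw [h3] at h2
        rw [h2, mul_pow]
        linear_combination (-(r : ℂ) ^ k * R (r * z)) * hzz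
      have h4 : (Br r z).re = 2 * (z ^ k).re * (A (r * z)).re := by
        have h5 := Z1_circle (k := k) (u := A (r * z)) hz a r
        rw [← h5]
        simp only [hBr]
        rw [h1]
      have h6 : |(z ^ k).re| ≤ 1 := by
        refine (Complex.abs_re_le_norm _).trans ?_
        rw [norm_pow, hz, one_pow]
      have h7 := hA0 _ (hmem r hr0 hr1 z hz.le)
      rw [h4, abs_mul, abs_mul, abs_two, abs_of_nonneg h7]
      nlinarith
    -- the maximum principle
    have hmax : ∀ s : ℝ, |s| = 1 → s * (Br r z).re ≤ 2 * (A (r * z)).re := by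
      intro s hs
      have h1 : ‖Complex.exp ((s : ℂ) * Br r z - 2 * A (r * z))‖ ≤ 1 := by
        refine Complex.norm_le_of_forall_mem_frontier_norm_le (U := ball (0 : ℂ) 1)
          (f := fun z => Complex.exp ((s : ℂ) * Br r z - 2 * A (r * z))) isBounded_ball ?_ ?_
          (subset_closure hz)
        · refine ⟨?_, ?_⟩
          · exact (((differentiableOn_const _).mul hdB).sub
              ((differentiableOn_const _).mul hdA)).cexp
          · rw [closure_ball (0 : ℂ) one_ne_zero]
            exact ((continuousOn_const.mul hcB).sub (continuousOn_const.mul hcA)).cexp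
        · intro w hw
          rw [frontier_ball (0 : ℂ) one_ne_zero, mem_sphere_zero_iff_norm] at hw
          rw [Complex.norm_exp, Real.exp_le_one_iff]
          have h2 := hcirc w hw
          have h3 : s * (Br r w).re ≤ |(Br r w).re| := by
            refine (le_abs_self _).trans ?_
            rw [abs_mul, hs, one_mul]
          simp only [Complex.sub_re, Complex.mul_re, Complex.ofReal_re, Complex.ofReal_im,
            zero_mul, sub_zero, Complex.re_ofNat, Complex.im_ofNat]
          linarith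
      rw [Complex.norm_exp, Real.exp_le_one_iff] at h1
      simp only [Complex.sub_re, Complex.mul_re, Complex.ofReal_re, Complex.ofReal_im,
        zero_mul, sub_zero, Complex.re_ofNat, Complex.im_ofNat] at h1
      linarith
    rw [abs_le]
    constructor
    · have := hmax (-1) (by norm_num)
      linarith
    · have := hmax 1 (by norm_num)
      linarith
  refine ⟨Br 1, -∑ n ∈ Finset.range k, C (a n) * X ^ n +
    ∑ n ∈ Finset.range k, C ((starRingEnd ℂ) (a n)) * X ^ (2 * k - n), ?_, ?_, ?_⟩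
  · simp only [hBr, Complex.ofReal_one, one_mul, one_pow, mul_one]
    refine ((by fun_prop : DifferentiableOn ℂ (fun z : ℂ => z ^ k) (ball 0 1)).mul hA).add
      hR |>.add ?_
    fun_prop
  · intro z hz
    -- let `r → 1`
    have hcont : ∀ f : ℂ → ℂ, DifferentiableOn ℂ f (ball 0 1) →
        Tendsto (fun r : ℝ => f ((r : ℂ) * z)) (𝓝[<] 1) (𝓝 (f z)) := by
      intro f hf
      have h1 : ContinuousAt f z :=
        (hf.differentiableAt (isOpen_ball.mem_nhds hz)).continuousAt
      have h2 : Tendsto (fun r : ℝ => (r : ℂ) * z) (𝓝[<] 1) (𝓝 z) := by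
        have h3 : Tendsto (fun r : ℝ => (r : ℂ) * z) (𝓝 1) (𝓝 (((1 : ℝ) : ℂ) * z)) :=
          (by fun_prop : Continuous fun r : ℝ => (r : ℂ) * z).tendsto 1
        rw [Complex.ofReal_one, one_mul] at h3
        exact h3.mono_left nhdsWithin_le_nhds
      exact h1.tendsto.comp h2
    have hlimA := hcont A hA
    have hlimR := hcont R hR
    have hr : Tendsto (fun r : ℝ => (r : ℂ)) (𝓝[<] 1) (𝓝 ((1 : ℝ) : ℂ)) :=
      (Complex.continuous_ofReal.tendsto 1).mono_left nhdsWithin_le_nhds
    have hlimB : Tendsto (fun r : ℝ => Br r z) (𝓝[<] 1) (𝓝 (Br 1 z)) := by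
      simp only [hBr]
      refine Tendsto.add (Tendsto.add (tendsto_const_nhds.mul ?_) (Tendsto.mul (hr.pow k) ?_))
        (tendsto_finsetSum _ fun n _ => ?_)
      · simpa using hlimA
      · simpa using hlimR
      · exact (tendsto_const_nhds.mul (hr.pow n)).mul_const _
    have hev : ∀ᶠ r : ℝ in 𝓝[<] 1, |(Br r z).re| ≤ 2 * (A (r * z)).re := by
      have h1 : ∀ᶠ r : ℝ in 𝓝[<] 1, r ∈ Ioo (0 : ℝ) 1 := Ioo_mem_nhdsLT one_pos
      filter_upwards [h1] with r hr
      exact hkey r hr.1.le hr.2 z hz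
    refine le_of_tendsto_of_tendsto ?_ ?_ hev
    · exact (continuous_abs.tendsto _).comp ((Complex.continuous_re.tendsto _).comp hlimB)
    · exact ((Complex.continuous_re.tendsto _).comp hlimA).const_mul 2
  · intro z hz
    have h1 := hT z hz
    simp only [hBr, Complex.ofReal_one, one_mul, one_pow, mul_one]
    rw [eval_add, eval_neg, eval_finsetSum, eval_finsetSum]
    simp only [eval_mul, eval_C, eval_pow, eval_X]
    have h2 : ∑ n ∈ Finset.range k, (starRingEnd ℂ) (a n) * z ^ (2 * k - n) =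
        z ^ k * ∑ n ∈ Finset.range k, (starRingEnd ℂ) (a n) * z ^ (k - n) := by
      rw [Finset.mul_sum]
      refine Finset.sum_congr rfl fun n hn => ?_
      have hn' : n < k := Finset.mem_range.1 hn
      have h3 : z ^ (2 * k - n) = z ^ k * z ^ (k - n) := by
        rw [← pow_add]
        congr 1
        omega
      rw [h3]
      ring
    rw [h2, two_mul, pow_add]
    linear_combination -h1

end Pool.Agent.Helper23.KU
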